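import Mathlib
import Pool.Agent.helper23.HRigidCore

/-!
# Continuous horizontally rigid functions of any number of variables are affine

The proof is in `Pool.Agent.helper23.HRigidCore` (`abstract_main`); here it is applied to
`F (x, t) = t - f x` on `ℝⁿ⁺¹` with the last basis vector as vertical direction.
-/

open Filter Topology
open scoped RealInnerProductSpace
open Pool.Agent.helper23.HRigid

namespace Pool.Agent.Results.MP_530d8e_an.HorizontalRigidity

/-- The graph `{(x, f x) : x ∈ ℝⁿ}` of `f : ℝⁿ → ℝ` as a subset of `ℝⁿ⁺¹`. -/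
def graph {n : ℕ} (f : EuclideanSpace ℝ (Fin n) → ℝ) : Set (EuclideanSpace ℝ (Fin (n + 1))) :=
  Set.range fun x => WithLp.toLp 2 (Fin.snoc (α := fun _ => ℝ) (fun i => x i) (f x))

/-- `f` is horizontally rigid for the set `C` of ratios: for each `c ∈ C` the graph of
`x ↦ f (c x)` is the image of the graph of `f` under an isometry of `ℝⁿ⁺¹`. -/
def HorizontallyRigidFor {n : ℕ} (C : Set ℝ) (f : EuclideanSpace ℝ (Fin n) → ℝ) : Prop :=
  ∀ c ∈ C, ∃ φ : EuclideanSpace ℝ (Fin (n + 1)) ≃ᵢ EuclideanSpace ℝ (Fin (n + 1)),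
    φ '' graph f = graph fun x => f (c • x)

/-- The first `n` coordinates. -/
def init {n : ℕ} (p : EuclideanSpace ℝ (Fin (n + 1))) : EuclideanSpace ℝ (Fin n) :=
  WithLp.toLp 2 fun i => p i.castSucc

lemma mem_graph_iff {n : ℕ} (f : EuclideanSpace ℝ (Fin n) → ℝ)
    (p : EuclideanSpace ℝ (Fin (n + 1))) : p ∈ graph f ↔ p (Fin.last n) = f (init p) := by
  constructor
  · rintro ⟨x, rfl⟩
    have : init (WithLp.toLp 2 (Fin.snoc (α := fun _ => ℝ) (fun i => x i) (f x))) = x := by
      ext i; simp [init]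
    simp [this]
  · intro hp
    refine ⟨init p, ?_⟩
    ext i
    refine Fin.lastCases ?_ (fun j => ?_) i
    · simp [hp]
    · simp [init]

lemma continuous_init {n : ℕ} : Continuous (init : EuclideanSpace ℝ (Fin (n + 1)) → _) := by
  unfold init
  fun_prop

/-- The last basis vector. -/
noncomputable def ee (n : ℕ) : EuclideanSpace ℝ (Fin (n + 1)) :=
  EuclideanSpace.single (Fin.last n) 1

lemma norm_ee (n : ℕ) : ‖ee n‖ = 1 := by simp [ee]

lemma init_add_smul {n : ℕ} (v : EuclideanSpace ℝ (Fin (n + 1))) (s : ℝ) :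
    init (v + s • ee n) = init v := by
  ext i
  simp [init, ee]

lemma last_add_smul {n : ℕ} (v : EuclideanSpace ℝ (Fin (n + 1))) (s : ℝ) :
    (v + s • ee n) (Fin.last n) = v (Fin.last n) + s := by
  simp [ee]

lemma inner_ee {n : ℕ} (v : EuclideanSpace ℝ (Fin (n + 1))) : ⟪ee n, v⟫ = v (Fin.last n) := by
  simp [ee, EuclideanSpace.inner_single_left]

lemma init_stretch {n : ℕ} (c : ℝ) (v : EuclideanSpace ℝ (Fin (n + 1))) :
    init (stretch (ee n) c v) = c • init v := by
  rw [stretch_apply, init_add_smul]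
  ext i; simp [init]

lemma last_stretch {n : ℕ} (c : ℝ) (v : EuclideanSpace ℝ (Fin (n + 1))) :
    (stretch (ee n) c v) (Fin.last n) = v (Fin.last n) := by
  rw [stretch_apply, last_add_smul, inner_ee]
  simp; ring

/-- **Main theorem.** A continuous function `f : ℝⁿ → ℝ` that is horizontally rigid for a set `C`
of positive ratios with `0` in its closure (in particular, with `C = (0, ∞)`, every continuous
horizontally rigid function) is affine. -/
theorem result {n : ℕ} (f : EuclideanSpace ℝ (Fin n) → ℝ) (hf : Continuous f)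
    (C : Set ℝ) (hC : C ⊆ Set.Ioi 0) (h0 : (0 : ℝ) ∈ closure C)
    (h : HorizontallyRigidFor C f) :
    ∃ (a : ℝ) (b : EuclideanSpace ℝ (Fin n)), ∀ x, f x = a + ⟪b, x⟫ := by
  have h1 : ∀ k : ℕ, ∃ c ∈ C, c < 1 / ((k : ℝ) + 1) := by
    intro k
    obtain ⟨c, hc, hd⟩ := Metric.mem_closure_iff.1 h0 (1 / ((k : ℝ) + 1)) (by positivity)
    refine ⟨c, hc, ?_⟩
    rw [dist_zero_left, Real.norm_of_nonneg (le_of_lt (hC hc))] at hd
    exact hd
  choose c hcC hck using h1
  have hc0 : ∀ k, 0 < c k := fun k => hC (hcC k)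
  choose φ hφ using fun k => h (c k) (hcC k)
  let F : EuclideanSpace ℝ (Fin (n + 1)) → ℝ := fun p => p (Fin.last n) - f (init p)
  have hF : Continuous F := by
    have h2 : Continuous fun p : EuclideanSpace ℝ (Fin (n + 1)) => f (init p) :=
      hf.comp continuous_init
    have h3 : Continuous fun p : EuclideanSpace ℝ (Fin (n + 1)) => p (Fin.last n) := by fun_prop
    exact h3.sub h2
  have hFe : ∀ v s, F (v + s • ee n) = F v + s := by
    intro v s
    show (v + s • ee n) (Fin.last n) - f (init (v + s • ee n)) = v (Fin.last n) - f (init v) + s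
    rw [last_add_smul, init_add_smul]; ring
  have hF0 : ∀ v, F v = 0 ↔ v ∈ graph f := by
    intro v
    rw [mem_graph_iff]
    exact sub_eq_zero
  have hFc : ∀ k v, F (stretch (ee n) (c k) v) = 0 ↔ v ∈ graph fun x => f (c k • x) := by
    intro k v
    rw [mem_graph_iff]
    show (stretch (ee n) (c k) v) (Fin.last n) - f (init (stretch (ee n) (c k) v)) = 0 ↔ _
    rw [last_stretch, init_stretch]
    exact sub_eq_zero
  let ψ : ℕ → (EuclideanSpace ℝ (Fin (n + 1)) ≃ᵃⁱ[ℝ] EuclideanSpace ℝ (Fin (n + 1))) :=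
    fun k => (φ k).symm.toRealAffineIsometryEquiv
  have hψ : ∀ k v, ψ k v = (ψ k).linearIsometryEquiv v + ψ k 0 := by
    intro k v
    have := (ψ k).map_vadd 0 v
    simpa using this
  have hγ : Tendsto (fun k => (c k)⁻¹) atTop atTop := by
    refine tendsto_atTop_mono (fun k => ?_) tendsto_natCast_atTop_atTop
    have h2 : (k : ℝ) + 1 < (c k)⁻¹ := by
      rw [lt_inv_comm₀ (by positivity) (hc0 k), inv_eq_one_div]
      exact hck k
    show (k : ℝ) ≤ (c k)⁻¹
    linarith
  obtain ⟨ℓ, c0, hℓ⟩ := abstract_main (norm_ee n) hF hFe (γ := fun k => (c k)⁻¹)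
    (fun k => inv_pos.2 (hc0 k)) hγ (fun k => (ψ k).linearIsometryEquiv) (fun k => ψ k 0) (by
      intro k v
      show F v = 0 ↔ F ((ψ k).linearIsometryEquiv (stretch (ee n) (c k)⁻¹ v) + ψ k 0) = 0
      rw [← hψ, hF0 (ψ k _)]
      have h2 : ψ k (stretch (ee n) (c k)⁻¹ v) ∈ graph f ↔
          stretch (ee n) (c k)⁻¹ v ∈ graph fun x => f (c k • x) := by
        rw [← hφ k]
        constructor
        · intro h3
          refine ⟨_, h3, ?_⟩
          exact (φ k).apply_symm_apply _
        · rintro ⟨u, hu, huv⟩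
          rw [← huv]
          have h4 : ψ k (φ k u) = u := (φ k).symm_apply_apply u
          rwa [h4]
      rw [h2, ← hFc k, stretch_stretch_inv (norm_ee n) (hc0 k).ne'])
  let L : EuclideanSpace ℝ (Fin n) →ₗ[ℝ] EuclideanSpace ℝ (Fin (n + 1)) :=
    { toFun := fun x => WithLp.toLp 2 (Fin.snoc (α := fun _ => ℝ) (fun i => x i) 0)
      map_add' := by
        intro x y
        ext i
        refine Fin.lastCases ?_ (fun j => ?_) i
        · simp
        · simp
      map_smul' := by
        intro s x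
        ext i
        refine Fin.lastCases ?_ (fun j => ?_) i
        · simp
        · simp }
  let m : EuclideanSpace ℝ (Fin n) →L[ℝ] ℝ := LinearMap.toContinuousLinearMap (-(ℓ ∘ₗ L))
  refine ⟨-c0, (InnerProductSpace.toDual ℝ _).symm m, fun x => ?_⟩
  rw [InnerProductSpace.toDual_symm_apply]
  have h5 : F (L x) = - f x := by
    show (L x) (Fin.last n) - f (init (L x)) = - f x
    have h6 : init (L x) = x := by
      ext i; simp [init, L]
    have h7 : (L x) (Fin.last n) = 0 := by simp [L]
    rw [h6, h7]; ring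
  have h8 := hℓ (L x)
  have h9 : m x = -ℓ (L x) := rfl
  rw [h9]
  linarith

end Pool.Agent.Results.MP_530d8e_an.HorizontalRigidity
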